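import Pool.Agent.P.MP_14079b_lc.DdfMain

set_option autoImplicit false
open Pool.Agent.P.MP_14079b_lc.Ddf

theorem Pool.Agent.Results.MP_14079b_lc.DeduceFinite.result {F : Type} {ar : F → ℕ}
    (E : ℕ → Set (Sym2 (Tm F ar))) (R : ℕ → Set (Tm F ar × Tm F ar))
    (gt : ℕ → Tm F ar → Tm F ar → Prop) (k : ℕ → Kind)
    (hE : (E 0).Finite) (hR : (R 0).Finite) (hgt : ∀ i, RedOrd (gt i))
    (hcomp : ∀ i, ∀ p ∈ R i, gt i p.1 p.2)
    (hstep : ∀ i, Step (gt i) (E i) (R i) (k i) (E (i + 1)) (R (i + 1))) (N : ℕ)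
    (hN : ∀ i, N ≤ i → k i = .deduce → E (i + 1) = E i) :
    ∃ M, ∀ i, M ≤ i → k i = .deduce ∧ E (i + 1) = E i ∧ R (i + 1) = R i :=
  main E R gt k hE hR hgt hcomp hstep N hN
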