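import Pool.Agent.P.MP_14079b_lc.TwoU
import Pool.Agent.P.MP_14079b_lc.Unary

set_option autoImplicit false

namespace Pool.Agent.Results.MP_14079b_lc.Signatures

open KBC

theorem result (F : Type) (ar : F → ℕ) :
    (∃ (E : ℕ → Set (Sym2 (Tm ar))) (R : ℕ → Set (Tm ar × Tm ar)),
      IsRun E R ∧ Fair E (persist R) ∧ persist E = ∅ ∧ ¬ Confluent (persist R)) ↔
    ¬ (((∀ f, ar f = 0) ∧ ENat.card F ≤ 4) ∨ ((∀ f, ar f ≤ 1) ∧ Function.Injective ar)) := by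
  refine ⟨?_, fun h => bad_of_large h⟩
  rintro ⟨E, R, hr, hF, hE, hC⟩ (⟨a, b⟩ | ⟨a, b⟩)
  · exact hC (four_safe a b hr hF hE)
  · exact hC (unary_safe a b hr hF hE)

end Pool.Agent.Results.MP_14079b_lc.Signatures
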